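import Pool.Agent.T9h21.DP.Spec

/-!
# Contents of disjoint sets are almost independent
-/

open Finset

set_option autoImplicit false

namespace Pool.Agent.T9h6.DP

open Pool.Agent.T9h21.DP

variable {m : ℕ}

/-- the vertices at which the two placements are exchanged -/
def Pv (I J : Finset (Fin (m + 1))) (x x' : Fin (m + 1)) : Prop :=
  (x ∈ J ∨ x' ∈ J) ∧ x ∉ I ∧ x' ∉ I

instance (I J : Finset (Fin (m + 1))) (x x' : Fin (m + 1)) : Decidable (Pv I J x x') := by
  unfold Pv; infer_instance

/-- the exchange -/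
def swp (I J : Finset (Fin (m + 1))) (p : Cfg m × Cfg m) : Cfg m × Cfg m :=
  (fun v => if Pv I J (p.1 v) (p.2 v) then p.2 v else p.1 v,
    fun v => if Pv I J (p.1 v) (p.2 v) then p.1 v else p.2 v)

theorem Pv_symm {I J : Finset (Fin (m + 1))} {x x' : Fin (m + 1)} (h : Pv I J x x') :
    Pv I J x' x := ⟨h.1.symm, h.2.2, h.2.1⟩

theorem swp_swp (I J : Finset (Fin (m + 1))) : Function.Involutive (swp (m := m) I J) := by
  rintro ⟨X, X'⟩
  refine Prod.ext (funext fun v => ?_) (funext fun v => ?_)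
  · by_cases h : Pv I J (X v) (X' v)
    · simp [swp, h, Pv_symm h]
    · simp [swp, h]
  · by_cases h : Pv I J (X v) (X' v)
    · simp [swp, h, Pv_symm h]
    · simp [swp, h]

theorem con_fst (I J : Finset (Fin (m + 1))) (p : Cfg m × Cfg m) :
    con (swp I J p).1 I = con p.1 I := by
  funext v
  by_cases h : Pv I J (p.1 v) (p.2 v)
  · simp [con, swp, h, h.2.1, h.2.2]
  · simp [con, swp, h]

/-- the exceptional pairs of placements -/
def Bad (I J : Finset (Fin (m + 1))) (p : Cfg m × Cfg m) : Prop :=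
  ∃ v, p.1 v ∈ I ∧ p.2 v ∈ J ∨ p.1 v ∈ J ∧ p.2 v ∈ I

instance (I J : Finset (Fin (m + 1))) : DecidablePred (Bad (m := m) I J) := fun _ => by
  unfold Bad; infer_instance

theorem con_snd {I J : Finset (Fin (m + 1))} (hd : Disjoint I J) {p : Cfg m × Cfg m}
    (hb : ¬ Bad I J p) : con (swp I J p).1 J = con p.2 J := by
  funext v
  by_cases h : Pv I J (p.1 v) (p.2 v)
  · simp [con, swp, h]
  · have h1 : ¬ (p.1 v ∈ I ∧ p.2 v ∈ J ∨ p.1 v ∈ J ∧ p.2 v ∈ I) := fun h' => hb ⟨v, h'⟩
    have h2 : p.1 v ∈ I → p.1 v ∉ J := fun a b => (disjoint_left.1 hd) a b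
    have h3 : p.2 v ∈ I → p.2 v ∉ J := fun a b => (disjoint_left.1 hd) a b
    have h4 : p.1 v ∈ J ↔ p.2 v ∈ J := by
      unfold Pv at h
      tauto
    simp [con, swp, h, h4]

theorem card_mem (I : Finset (Fin (m + 1))) (v : Fin (m + 1)) :
    (univ.filter fun X : Cfg m => X v ∈ I).card = I.card * (m + 1) ^ m := by
  have h : (univ.filter fun X : Cfg m => X v ∈ I) =
      Fintype.piFinset fun u => if u = v then I else univ := by
    ext X
    simp only [mem_filter, mem_univ, true_and, Fintype.mem_piFinset]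
    constructor
    · intro h u
      by_cases hu : u = v
      · subst hu; simpa using h
      · simp [hu]
    · intro h
      simpa using h v
  rw [h, Fintype.card_piFinset, ← Finset.mul_prod_erase univ _ (mem_univ v)]
  rw [if_pos rfl, Finset.prod_congr rfl (g := fun _ => m + 1) fun u hu => by
    rw [if_neg (Finset.ne_of_mem_erase hu)]; simp]
  simp

theorem card_bad (I J : Finset (Fin (m + 1))) :
    (univ.filter fun p : Cfg m × Cfg m => Bad I J p).card ≤
      (m + 1) * (2 * (I.card * (m + 1) ^ m) * (J.card * (m + 1) ^ m)) := by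
  have h : (univ.filter fun p : Cfg m × Cfg m => Bad I J p) ⊆
      univ.biUnion fun v =>
        ((univ.filter fun X : Cfg m => X v ∈ I) ×ˢ (univ.filter fun X : Cfg m => X v ∈ J)) ∪
        ((univ.filter fun X : Cfg m => X v ∈ J) ×ˢ (univ.filter fun X : Cfg m => X v ∈ I)) := by
    intro p hp
    obtain ⟨v, hv⟩ := (mem_filter.1 hp).2
    refine mem_biUnion.2 ⟨v, mem_univ _, ?_⟩
    simp only [mem_union, mem_product, mem_filter, mem_univ, true_and]
    exact hv
  refine (card_le_card h).trans (card_biUnion_le.trans ?_)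
  refine (sum_le_card_nsmul _ _ (2 * (I.card * (m + 1) ^ m) * (J.card * (m + 1) ^ m))
    fun v _ => ?_).trans ?_
  · refine (card_union_le _ _).trans ?_
    rw [card_product, card_product, card_mem, card_mem]
    exact le_of_eq (by ring)
  · simp

theorem ind_nonneg (D : Finset (Cut m)) (X : Cfg m) (I : Finset (Fin (m + 1))) :
    0 ≤ ind D X I := by unfold ind; split_ifs <;> norm_num

theorem ind_le_one (D : Finset (Cut m)) (X : Cfg m) (I : Finset (Fin (m + 1))) :
    ind D X I ≤ 1 := by unfold ind; split_ifs <;> norm_num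

theorem dis (m : ℕ) : S_dis m := by
  intro D I J hd
  have hN : (0 : ℝ) < (m : ℝ) + 1 := by positivity
  -- the main inequality
  have key : (∑ X : Cfg m, ind D X I * ind D X J) * ((m : ℝ) + 1) ^ (m + 1) ≤
      (∑ X : Cfg m, ind D X I) * (∑ X : Cfg m, ind D X J) +
        ((m : ℝ) + 1) * (2 * (I.card * ((m : ℝ) + 1) ^ m) * (J.card * ((m : ℝ) + 1) ^ m)) := by
    have h1 : (∑ X : Cfg m, ind D X I * ind D X J) * ((m : ℝ) + 1) ^ (m + 1) =
        ∑ p : Cfg m × Cfg m, ind D p.1 I * ind D p.1 J := by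
      rw [Fintype.sum_prod_type, sum_mul]
      refine sum_congr rfl fun X _ => ?_
      simp only [sum_const, card_univ, Fintype.card_pi, Fintype.card_fin, prod_const, nsmul_eq_mul]
      push_cast
      ring
    have h2 : (∑ p : Cfg m × Cfg m, ind D p.1 I * ind D p.1 J) =
        ∑ p : Cfg m × Cfg m, ind D (swp I J p).1 I * ind D (swp I J p).1 J :=
      (Equiv.sum_comp (swp_swp I J).toPerm
        fun p : Cfg m × Cfg m => ind D p.1 I * ind D p.1 J).symm
    have h3 : (∑ p : Cfg m × Cfg m, ind D (swp I J p).1 I * ind D (swp I J p).1 J) ≤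
        ∑ p : Cfg m × Cfg m, (ind D p.1 I * ind D p.2 J + if Bad I J p then 1 else 0) := by
      refine sum_le_sum fun p _ => ?_
      have a1 : ind D (swp I J p).1 I = ind D p.1 I := by
        simp only [ind, con_fst]
      rw [a1]
      by_cases hb : Bad I J p
      · rw [if_pos hb]
        have b1 := ind_nonneg D p.1 I
        have b2 := ind_le_one D p.1 I
        have b3 := ind_nonneg D (swp I J p).1 J
        have b4 := ind_le_one D (swp I J p).1 J
        have b5 := ind_nonneg D p.2 J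
        nlinarith [mul_nonneg b1 b5]
      · have a2 : ind D (swp I J p).1 J = ind D p.2 J := by
          simp only [ind, con_snd hd hb]
        rw [a2, if_neg hb, add_zero]
    have h4 : (∑ p : Cfg m × Cfg m, ind D p.1 I * ind D p.2 J) =
        (∑ X : Cfg m, ind D X I) * (∑ X : Cfg m, ind D X J) := by
      rw [Fintype.sum_prod_type, sum_mul_sum]
    have h5 : (∑ p : Cfg m × Cfg m, if Bad I J p then (1 : ℝ) else 0) ≤
        ((m : ℝ) + 1) * (2 * (I.card * ((m : ℝ) + 1) ^ m) * (J.card * ((m : ℝ) + 1) ^ m)) := by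
      rw [Finset.sum_boole]
      exact_mod_cast card_bad I J
    rw [h1, h2]
    refine h3.trans ?_
    rw [sum_add_distrib, h4]
    exact add_le_add_right h5 _
  unfold avg
  have hZ : (0 : ℝ) < ((m : ℝ) + 1) ^ (m + 1) := by positivity
  rw [div_mul_div_comm, div_add_div _ _ (by positivity) hN.ne', div_le_div_iff₀ hZ (by positivity)]
  have e1 : ((m : ℝ) + 1) ^ (m + 1) = ((m : ℝ) + 1) ^ m * ((m : ℝ) + 1) := pow_succ _ _
  have h6 := mul_le_mul_of_nonneg_right key (show (0 : ℝ) ≤ ((m : ℝ) + 1) ^ (m + 1) * ((m : ℝ) + 1)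
    by positivity)
  calc _ = (∑ X : Cfg m, ind D X I * ind D X J) * ((m : ℝ) + 1) ^ (m + 1) *
        (((m : ℝ) + 1) ^ (m + 1) * ((m : ℝ) + 1)) := by ring
    _ ≤ _ := h6
    _ = _ := by
      rw [e1]
      ring

end Pool.Agent.T9h6.DP
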