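import Pool.Agent.T9h21.DP.Spec

/-!
# Symmetry of the uniform placement
-/

open Finset

set_option autoImplicit false

namespace Pool.Agent.T9h6.DP

open Pool.Agent.T9h21.DP

variable {m : ℕ}

/-- membership in `I` and in `J` -/
def col (I J : Finset (Fin (m + 1))) (t : Fin (m + 1)) : Bool × Bool :=
  (decide (t ∈ I), decide (t ∈ J))

theorem card_col {I J : Finset (Fin (m + 1))} (h : I ⊆ J) (c : Bool × Bool) :
    Fintype.card {t // col I J t = c} =
      if c = (true, true) then I.card else if c = (false, true) then J.card - I.card else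
        if c = (false, false) then m + 1 - J.card else 0 := by
  rw [Fintype.card_subtype]
  rcases c with ⟨_ | _, _ | _⟩
  · have : (univ.filter fun t => col I J t = (false, false)) = univ \ J := by
      ext t
      simp only [col, mem_filter, mem_univ, true_and, Prod.mk.injEq, decide_eq_false_iff_not,
        mem_sdiff]
      exact ⟨fun h => h.2, fun h' => ⟨fun h2 => h' (h h2), h'⟩⟩
    rw [this, card_sdiff_of_subset (subset_univ _)]
    simp
  · have : (univ.filter fun t => col I J t = (false, true)) = J \ I := by
      ext t
      simp only [col, mem_filter, mem_univ, true_and, Prod.mk.injEq, decide_eq_false_iff_not,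
        decide_eq_true_eq, mem_sdiff]
      exact ⟨fun h => ⟨h.2, h.1⟩, fun h => ⟨h.2, h.1⟩⟩
    rw [this, card_sdiff_of_subset h]
    simp
  · have : (univ.filter fun t => col I J t = (true, false)) = ∅ := by
      ext t
      simp only [col, mem_filter, mem_univ, true_and, Prod.mk.injEq, decide_eq_false_iff_not,
        decide_eq_true_eq, notMem_empty, iff_false, not_and, not_not]
      exact fun h' => h h'
    rw [this]
    simp
  · have : (univ.filter fun t => col I J t = (true, true)) = I := by
      ext t
      simp only [col, mem_filter, mem_univ, true_and, Prod.mk.injEq, decide_eq_true_eq]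
      exact ⟨fun h => h.1, fun h' => ⟨h', h h'⟩⟩
    rw [this]
    simp

/-- a permutation of the cells which maps `I` to `I'` and `J` to `J'` -/
theorem exists_perm {I J I' J' : Finset (Fin (m + 1))} (h : I ⊆ J) (h' : I' ⊆ J')
    (hI : I.card = I'.card) (hJ : J.card = J'.card) :
    ∃ π : Equiv.Perm (Fin (m + 1)), ∀ t, (π t ∈ I' ↔ t ∈ I) ∧ (π t ∈ J' ↔ t ∈ J) := by
  have e : ∀ c, Nonempty ({t // col I J t = c} ≃ {t // col I' J' t = c}) := fun c =>
    Fintype.card_eq.1 (by rw [card_col h, card_col h', hI, hJ])
  let f := fun c => Classical.choice (e c)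
  refine ⟨Equiv.ofFiberEquiv f, fun t => ?_⟩
  have h1 := Equiv.ofFiberEquiv_map f t
  simp only [col, Prod.mk.injEq, decide_eq_decide] at h1
  exact h1

theorem sym (m : ℕ) : S_sym m := by
  intro D I J I' J' h h' hI hJ
  obtain ⟨π, hπ⟩ := exists_perm h h' hI hJ
  unfold avg
  congr 1
  rw [← Equiv.sum_comp (Equiv.arrowCongr (Equiv.refl (Fin (m + 1))) π)
    fun X : Cfg m => ind D X I' * ind D X J']
  refine sum_congr rfl fun X _ => ?_
  have h1 : con (Equiv.arrowCongr (Equiv.refl (Fin (m + 1))) π X) I' = con X I := by
    funext v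
    simp only [con, Equiv.arrowCongr_apply, Equiv.coe_refl, Function.comp_apply,
      Equiv.refl_symm, id_eq, decide_eq_decide]
    exact (hπ _).1
  have h2 : con (Equiv.arrowCongr (Equiv.refl (Fin (m + 1))) π X) J' = con X J := by
    funext v
    simp only [con, Equiv.arrowCongr_apply, Equiv.coe_refl, Function.comp_apply,
      Equiv.refl_symm, id_eq, decide_eq_decide]
    exact (hπ _).2
  simp only [ind, h1, h2]

end Pool.Agent.T9h6.DP
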